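import Pool.Agent.Q76.HL.GDI
import Pool.Agent.Q234.HL.GDS
import Pool.Agent.Q65.HL.GDC
import Pool.Agent.Q18.HL.NZ4
import Pool.Agent.Q124.HL.RED4
import Pool.Agent.Q79.HL.DPG4
import Pool.Agent.Q194.HL.C2R4
import Pool.Agent.Q129.HL.C1R4
import Pool.Agent.Q164.HL.PAR4
import Pool.Agent.Q68.HL.VA24
import Pool.Agent.Q153.HL.VA14
import Pool.Agent.Q252.HL.NFO
import Pool.Agent.Q192.HL.PAD4
import Pool.Agent.Q13.HL.CLS4
import Pool.Agent.Q256.HL.CUB4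
import Pool.Agent.Q94.HL.INA4
import Pool.Agent.Q278.HL.In24
import Pool.Agent.Q278.HL.In14
import Pool.Agent.Q252.HL.FIB4
import Pool.Agent.Q238.HL.CNC4
import Pool.Agent.Q204.HL.Cfp
import Pool.Agent.Q144.HL_CLT4
import Pool.Agent.Q176.HL.FIN4

/-! Assembly: points with `M R ^ 6 ≤ x`. -/

set_option autoImplicit false

namespace Pool.Agent.Q276.HL

theorem red4_true : StmtRED4 :=
  Pool.Agent.Q124.HL.red4 Pool.Agent.Q234.HL.GDS.gds Pool.Agent.Q76.HL.gdi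
    Pool.Agent.Q65.HL.gdc Pool.Agent.Q18.HL.nz4

theorem cub4_true : StmtCUB4 :=
  Pool.Agent.Q256.HL.cub4 (Pool.Agent.Q13.HL.cls4 Pool.Agent.Q192.HL.pad4
    Pool.Agent.Q252.HL.NFO.nfo)

theorem in24_true : StmtIN24 :=
  Pool.Agent.Q278.HL.IN24.in24 (Pool.Agent.Q68.HL.va24 Pool.Agent.Q194.HL.C2R4.c2r4
    Pool.Agent.Q79.HL.dpg4 Pool.Agent.Q164.HL.par4) cub4_true Pool.Agent.Q94.HL.ina4

theorem in14_true : StmtIN14 :=
  Pool.Agent.Q278.HL.IN14.in14 (Pool.Agent.Q153.HL.va14 Pool.Agent.Q129.HL.C1R4.c1r4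
    Pool.Agent.Q79.HL.dpg4 Pool.Agent.Q164.HL.par4) cub4_true Pool.Agent.Q94.HL.ina4

theorem cnc4_true : StmtCNC4 :=
  Pool.Agent.Q238.HL.cnc4 (Pool.Agent.Q252.HL.FIB4.fib4 in24_true in14_true)

theorem fin4_true : StmtFIN4 :=
  Pool.Agent.Q176.HL.FIN4.fin4 red4_true cnc4_true Pool.Agent.Q204.HL.cfp
    Pool.Agent.Q144.HL.clt4

end Pool.Agent.Q276.HL
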