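import Pool.Agent.Q276.HL.Stm

/-! Statements for the points with small `x` (the range below the one of `StmtFIN4`): for all but few
`(A, B)` in the box the curve `y ^ 2 = x ^ 3 + A x + B` has no integral point with
`x ≤ exp (R ^ (1/5000))` at all. -/

set_option autoImplicit false

namespace Pool.Agent.Q276.HL

open Pool.Agent.W223.HZ

noncomputable section

/-- LOW1: points with `x ≤ R ^ 4.8`.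

Proof. `B` is determined by `(x, y, A)`, and `y ≥ 0` may be supposed. As `x ^ 3 + A x + B ≥ 0`,
`x ≥ - 2 R`. For `|x| ≤ 4 R`: `y ^ 2 ≤ 69 R ^ 3`, at most `C R R ^ (3/2) R ^ 2` triples. Let `x > 4 R`.
`|y ^ 2 - x ^ 3| ≤ R ^ 2 x + R ^ 3 ≤ (5/4) R ^ 2 x`, so `|y - x ^ (3/2)| ≤ (5/4) R ^ 2 / √x`, at most
`3 R ^ 2 / √x + 1` values of `y`; for given `x, y` we have `|A - (y ^ 2 - x ^ 3) / x| ≤ R ^ 3 / x`, at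
most `2 R ^ 3 / x + 1` values of `A`. The product is
`6 R ^ 5 x ^ (-3/2) + 3 R ^ 2 x ^ (-1/2) + 2 R ^ 3 / x + 1`, where for `R ≤ x ≤ R ^ 4.8` each of the first
three terms is at most `6 R ^ (4.5) / x`, so the sum over `x` is at most
`C R ^ (4.5) (1 + log R) + R ^ (4.8)`. -/
def StmtLOW1 : Prop := ∃ C : ℝ, 1 ≤ C ∧ ∀ R : ℝ, 1 ≤ R →
  ({X : ℤ × ℤ | |(X.1 : ℝ)| ≤ R ^ 2 ∧ |(X.2 : ℝ)| ≤ R ^ 3 ∧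
    ∃ x y : ℤ, y ^ 2 = x ^ 3 + X.1 * x + X.2 ∧ (x : ℝ) ≤ R ^ ((24 : ℝ) / 5)}.ncard : ℝ) ≤
    C * R ^ ((49 : ℝ) / 10)

/-- REDL: the reduction without `a ≠ 0`, for smaller `x`. Proof: as for StmtRED4
(Pool/Agent/Q124/HL/RED4.lean; there `100 R ^ 6 ≤ x` is used only for `1 ≤ V` and in NZ4; here
`V = √(√x / R) ≥ √R ≥ 1`). -/
def StmtREDL : Prop := ∀ R : ℝ, 20 ≤ R → ∀ x y A B : ℤ, y ^ 2 = x ^ 3 + A * x + B → 0 ≤ y →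
  |(A : ℝ)| ≤ R ^ 2 → |(B : ℝ)| ≤ R ^ 3 → R ^ 4 ≤ (x : ℝ) →
  ∃ (i j : ℕ) (a b c d e p q : ℤ), (2 : ℝ) ^ i ≤ √(√(x : ℝ) / R) ∧
    √(√(x : ℝ) / R) < 2 ^ (i + 1) ∧ Good4 3000 R (2 ^ j / 2) (2 ^ i) a b c d e p q ∧
    (Ch2 3000 R (2 ^ j / 2) (2 ^ i) a b c d p q ∨ Ch1 3000 R (2 ^ j / 2) (2 ^ i) b c d e p q) ∧
    iI a b c d e = -4 * A ∧ iJ a b c d e = -4 * B

/-- TBD: a bound for the shape.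

Proof. If `a ≠ 0`: `T ^ 4 ≤ 3000 R`, `T ≤ 8 R ^ (1/4)`. If `a = 0`, `b ≠ 0`: `T ^ 2 ≤ 3000 R`, and
`q ∣ qv = 1`, so `|q| = 1`. Ch2: `V ≤ 3000 T ≤ 3000 √(3000 R) < R ^ (2/3)` for large `R`, impossible.
Ch1: `T V ≤ 3000 |p|` and `4 |b| |p| ^ 3 ≤ 1 + 6 |c| p ^ 2 + 4 |d| |p| + |e|` give
`4 |p| ≤ 1 + 18000 R + 12000 R T ^ 2 / |p| + 3000 R T ^ 4 / p ^ 2`, where `T ^ 2 / |p| ≤ 3000 T / V` and
`T ^ 4 / p ^ 2 ≤ 3000 ^ 2 T ^ 2 / V ^ 2` are bounded. So `T V ≤ C R`, `T ≤ C R ^ (1/3)`. -/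
def StmtTBD : Prop := ∃ C : ℝ, 1 ≤ C ∧ ∀ R T V : ℝ, C ≤ R → 1 / 2 ≤ T →
  R ^ ((2 : ℝ) / 3) ≤ V → ∀ a b c d e p q : ℤ, Good4 3000 R T V a b c d e p q →
  (Ch2 3000 R T V a b c d p q ∨ Ch1 3000 R T V b c d e p q) → (a ≠ 0 ∨ b ≠ 0) →
  T ≤ C * R ^ ((1 : ℝ) / 3)

/-- LCT: count of the forms with a point, small `V`.

Proof. There are at most `C V ^ 2` pairs `(p, q)` (`|p| ≤ 3000 T V`, `|q| ≤ 3000 V / T`, and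
`T V ≥ 1/2`, `V / T ≥ 1 / M`). Fix `(p, q)`; `p, q` are coprime. Case Ch2: `|q| ≥ V / (3000 T)`. The map
`(a, b, c, d, e) ↦ (⌊a / |q|⌋, ⌊4 b / |q|⌋, ⌊6 c / |q|⌋, ⌊4 d / |q|⌋)` is injective on the forms with
value 1 at `(p, q)`: for the difference `(α, β, γ, δ, ε)` of two of them
`α p ^ 4 + 4 β p ^ 3 q + 6 γ p ^ 2 q ^ 2 + 4 δ p q ^ 3 + ε q ^ 4 = 0`, so `q ∣ α`, and `|α| < |q|`, so
`α = 0`; then `q ∣ 4 β`, `β = 0`, and so on; finally `ε = 0`. So with the bounds of Good4 there are at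
most `C (R / (T ^ 3 V) + 1) (R / (T V) + 1) (R T / V + 1) (R T ^ 3 / V + 1)` forms, at most
`C' (R / V) (R / V) (R T / V) (R T ^ 3 / V)` (as `T ≥ 1/2`, `V ≤ M R`). Case Ch1: `|p| ≥ T V / 3000`,
the same with `(e, d, c, b, a)`, `(q, p)`: the same bound. Total at most
`C R ^ 4 T ^ 4 / V ^ 2 ≤ C R ^ 4`. -/
def StmtLCT : Prop := ∀ M : ℝ, 1 ≤ M → ∃ C : ℝ, 1 ≤ C ∧ ∀ R T V : ℝ, 1 ≤ R → 1 / 2 ≤ T →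
  T ≤ M * R ^ ((1 : ℝ) / 3) → R ^ ((2 : ℝ) / 3) ≤ V → V ≤ M * R →
  (pairs fun a b c d e => ∃ p q : ℤ, Good4 3000 R T V a b c d e p q ∧
    (Ch2 3000 R T V a b c d p q ∨ Ch1 3000 R T V b c d e p q)).Finite ∧
  ((pairs fun a b c d e => ∃ p q : ℤ, Good4 3000 R T V a b c d e p q ∧
    (Ch2 3000 R T V a b c d p q ∨ Ch1 3000 R T V b c d e p q)).ncard : ℝ) ≤ C * R ^ 4

/-- FLW: points with `R ^ 4.8 ≤ x ≤ M R ^ 6`.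

Proof from REDL, TBD, LCT (similar to StmtFIN4, Pool/Agent/Q176/HL/FIN4.lean, but shorter). Small `R`
by `C`; `y ≥ 0` by symmetry. REDL gives `V = 2 ^ i`, `T = 2 ^ j / 2`; `a ≠ 0` or `b ≠ 0`, as otherwise
`-4 A = 3 c ^ 2`, `4 B = c ^ 3` and the curve is singular. `V > √(√x / R) / 2 ≥ R ^ (7/10) / 2 ≥
R ^ (2/3)` and `V ≤ M R`, TBD: `T ≤ C R ^ (1/3)`. So there are at most `C log R` values of `i` and of `j`,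
and LCT for each of them. -/
def StmtFLW : Prop := ∀ M : ℝ, 1 ≤ M → ∃ C : ℝ, 1 ≤ C ∧ ∀ R : ℝ, 1 ≤ R →
  ({X : ℤ × ℤ | |(X.1 : ℝ)| ≤ R ^ 2 ∧ |(X.2 : ℝ)| ≤ R ^ 3 ∧ 4 * X.1 ^ 3 + 27 * X.2 ^ 2 ≠ 0 ∧
    ∃ x y : ℤ, y ^ 2 = x ^ 3 + X.1 * x + X.2 ∧ R ^ ((24 : ℝ) / 5) ≤ (x : ℝ) ∧
      (x : ℝ) ≤ M * R ^ 6}.ncard : ℝ) ≤ C * R ^ ((9 : ℝ) / 2)

/-- FINA: the result, from LOW1, FLW, FIN4 (three sets, each finite as a subset of the box). -/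
def StmtFINA : Prop := ∃ M : ℝ, ∀ R : ℝ, 1 ≤ R →
  ({X : ℤ × ℤ | |(X.1 : ℝ)| ≤ R ^ 2 ∧ |(X.2 : ℝ)| ≤ R ^ 3 ∧ 4 * X.1 ^ 3 + 27 * X.2 ^ 2 ≠ 0 ∧
    ∃ x y : ℤ, y ^ 2 = x ^ 3 + X.1 * x + X.2 ∧
      (x : ℝ) ≤ Real.exp (R ^ ((1 : ℝ) / 5000))}.ncard : ℝ) ≤ M * R ^ (5 - (1 : ℝ) / 50)

end

end Pool.Agent.Q276.HL
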