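import Pool.Agent.Q276.HL.All
import Pool.Agent.Q276.HL.Stm2
import Pool.Agent.Q278.HL.Low1
import Pool.Agent.Q135.HL.REDL
import Pool.Agent.Q40.HL.TBD
import Pool.Agent.Q130.HL.FLW
import Pool.Agent.Q26.HL.FINA
import Pool.Agent.Q54.HL.LCT

/-! Assembly: all points with `x ≤ exp (R ^ (1/5000))`. -/

set_option autoImplicit false

namespace Pool.Agent.Q276.HL

theorem redl_true : StmtREDL :=
  Pool.Agent.Q135.HL.redl Pool.Agent.Q234.HL.GDS.gds Pool.Agent.Q76.HL.gdi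
    Pool.Agent.Q65.HL.gdc

theorem flw_true : StmtFLW :=
  Pool.Agent.Q130.HL.FLW.flw redl_true Pool.Agent.Q40.HLTBD.tbd Pool.Agent.Q54.HL.lct

theorem fina_true : StmtFINA := Pool.Agent.Q26.HL.fina _root_.Q278.HL.low1 flw_true fin4_true

end Pool.Agent.Q276.HL
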