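import Pool.Agent.W223.HZ.Stms

/-! Statements for: for all but few `(A, B)` in the box `|A| ≤ R ^ 2`, `|B| ≤ R ^ 3` the curve
`y ^ 2 = x ^ 3 + A x + B` has no integral point with `M R ^ 6 ≤ x ≤ exp (R ^ (1/5000))`.

This is the analogue, with binary quartic forms `(a, 4 b, 6 c, 4 d, e)` (invariants `I`, `J`) in place
of binary cubic forms (discriminant), of the finished project `Pool.Agent.W223.HZ` for the curves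
`y ^ 2 = x ^ 3 + k`. Every statement here has a model there, with the same name without `4`, and its
proof is an adaptation of the proof of the model (file named in each docstring). -/

set_option autoImplicit false

namespace Pool.Agent.Q276.HL

open Polynomial Pool.Agent.W223.HZ

noncomputable section

/-- The value of the form `(a, 4 b, 6 c, 4 d, e)` at `(p, q)`. -/
def qv (a b c d e p q : ℤ) : ℤ :=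
  a * p ^ 4 + 4 * b * p ^ 3 * q + 6 * c * p ^ 2 * q ^ 2 + 4 * d * p * q ^ 3 + e * q ^ 4

/-- The invariant `I`. -/
def iI (a b c d e : ℤ) : ℤ := a * e - 4 * b * d + 3 * c ^ 2

/-- The invariant `J`. -/
def iJ (a b c d e : ℤ) : ℤ :=
  a * c * e + 2 * b * c * d - a * d ^ 2 - b ^ 2 * e - c ^ 3

/-- `(a, 4 b, 6 c, 4 d, e)` is in the box of size `R`, shape `T`, and takes the value `1` at `(p, q)`,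
a point of size `V`. -/
structure Good4 (C R T V : ℝ) (a b c d e p q : ℤ) : Prop where
  ha : |(a : ℝ)| * T ^ 4 ≤ C * R
  hb : |(b : ℝ)| * T ^ 2 ≤ C * R
  hc : |(c : ℝ)| ≤ C * R
  hd : |(d : ℝ)| ≤ C * (R * T ^ 2)
  he : |(e : ℝ)| ≤ C * (R * T ^ 4)
  hp : |(p : ℝ)| ≤ C * (T * V)
  hq : |(q : ℝ)| * T ≤ C * V
  heq : qv a b c d e p q = 1

def Ch2 (C R T V : ℝ) (a b c d p q : ℤ) : Prop :=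
  V ≤ C * (|(q : ℝ)| * T) ∧ R * V ^ 3 ≤
    C * (T * |((a * p ^ 3 + 3 * b * p ^ 2 * q + 3 * c * p * q ^ 2 + d * q ^ 3 : ℤ) : ℝ)|)

def Ch1 (C R T V : ℝ) (b c d e p q : ℤ) : Prop :=
  T * V ≤ C * |(p : ℝ)| ∧ R * (T * V ^ 3) ≤
    C * |((b * p ^ 3 + 3 * c * p ^ 2 * q + 3 * d * p * q ^ 2 + e * q ^ 3 : ℤ) : ℝ)|

/-- The coefficients of the form `f(m u₁ + n u₂, m v₁ + n v₂)`,
`f = X⁴ - 6 x X² Y² + 8 y X Y³ - (4 A + 3 x²) Y⁴`, are `qA(u₁, v₁)`, `4 qB(u₁, v₁, u₂, v₂)`,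
`6 qC(u₁, v₁, u₂, v₂)`, `4 qB(u₂, v₂, u₁, v₁)`, `qA(u₂, v₂)`. -/
def qA (A x y u v : ℤ) : ℤ :=
  u ^ 4 - 6 * x * u ^ 2 * v ^ 2 + 8 * y * u * v ^ 3 - (4 * A + 3 * x ^ 2) * v ^ 4

def qB (A x y u₁ v₁ u₂ v₂ : ℤ) : ℤ :=
  u₁ ^ 3 * u₂ - x * (3 * u₁ ^ 2 * v₁ * v₂ + 3 * u₁ * u₂ * v₁ ^ 2) +
    2 * y * (3 * u₁ * v₁ ^ 2 * v₂ + u₂ * v₁ ^ 3) - (4 * A + 3 * x ^ 2) * v₁ ^ 3 * v₂

def qC (A x y u₁ v₁ u₂ v₂ : ℤ) : ℤ :=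
  u₁ ^ 2 * u₂ ^ 2 - x * (u₁ ^ 2 * v₂ ^ 2 + u₂ ^ 2 * v₁ ^ 2 + 4 * u₁ * u₂ * v₁ * v₂) +
    2 * y * (2 * u₁ * v₁ * v₂ ^ 2 + 2 * u₂ * v₁ ^ 2 * v₂) - (4 * A + 3 * x ^ 2) * v₁ ^ 2 * v₂ ^ 2

/-- GDI: the invariants (model: the second half of StmtGD1, W490/HZ/GD1.lean).

Proof: `f` has the invariants `-4 A`, `-4 B` (with `B = y² - x³ - A x`), and `I`, `J` are invariant
under `SL₂`: polynomial identities; e.g. first prove with `ring` (or by composing the shears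
`X → X + k Y` and the flip) that `I` of the transformed form is `(u₁ v₂ - u₂ v₁) ^ 4 I`, `J` is
`(u₁ v₂ - u₂ v₁) ^ 6 J`. -/
def StmtGDI : Prop := ∀ x y A B u₁ v₁ u₂ v₂ : ℤ, y ^ 2 = x ^ 3 + A * x + B →
  u₁ * v₂ - u₂ * v₁ = 1 →
  iI (qA A x y u₁ v₁) (qB A x y u₁ v₁ u₂ v₂) (qC A x y u₁ v₁ u₂ v₂) (qB A x y u₂ v₂ u₁ v₁)
    (qA A x y u₂ v₂) = -4 * A ∧
  iJ (qA A x y u₁ v₁) (qB A x y u₁ v₁ u₂ v₂) (qC A x y u₁ v₁ u₂ v₂) (qB A x y u₂ v₂ u₁ v₁)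
    (qA A x y u₂ v₂) = -4 * B

/-- GDS: from a basis to a good form, sizes (model StmtGD1, W490/HZ/GD1.lean).

Proof. Put `s = (u - α v) V`, `t = v / V` for a vector `(u, v)`, `n² = s² + t²`; so `n₁ ≤ 1 / T`,
`n₂ ≤ √8 T`. In these coordinates (expand `f(α Y + w, Y)`, `w = s / V`, `Y = V t`)
`f = s⁴ / V⁴ + 4 R s³ t + 8 (y - α³) V² s t³ + (8 α (y - α³) - 4 A) V⁴ t⁴` (using `V² R = α`;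
no `s² t²` term). From `y - α³ = (A α² + B) / (y + α³)`: `|y - α³| ≤ 2 R² / α` and
`|8 α (y - α³) - 4 A| = |4 A (α³ - y) + 8 α B| / (y + α³) ≤ 16 R³ / α²` (as `R ≤ α ≤ α²`). So the
polarised form is bounded by `(1 + 4 R + 16 R + 16 R) n n' n'' n''' ≤ 37 R n n' n'' n'''`:
`|a| ≤ 37 R / T⁴`, `|b| ≤ 37 √8 R / T²`, `|c| ≤ 296 R`, `|d| ≤ 840 R T²`, `|e| ≤ 2368 R T⁴`.
`|v₂| ≤ V n₂ ≤ 6 T V₀`, `v₁ ≤ V / T ≤ 2 V₀ / T`. The value at `(v₂, -v₁)` is `f(1, 0) = 1`. -/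
def StmtGDS : Prop := ∀ (R α V V₀ T : ℝ), 20 ≤ R → 0 < α → V ^ 2 * R = α → 1 ≤ V₀ → V₀ ≤ V →
  V < 2 * V₀ → 1 / 2 ≤ T → ∀ (x y A B : ℤ), α ^ 2 = x → 0 ≤ y → y ^ 2 = x ^ 3 + A * x + B →
  |(A : ℝ)| ≤ R ^ 2 → |(B : ℝ)| ≤ R ^ 3 → ∀ (u₁ v₁ u₂ v₂ : ℤ), u₁ * v₂ - u₂ * v₁ = 1 → 1 ≤ v₁ →
  ((((u₁ : ℝ) - α * v₁) * V) ^ 2 + (v₁ / V) ^ 2) * T ^ 2 ≤ 1 →
  (((u₂ : ℝ) - α * v₂) * V) ^ 2 + (v₂ / V) ^ 2 ≤ 8 * T ^ 2 →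
  Good4 3000 R T V₀ (qA A x y u₁ v₁) (qB A x y u₁ v₁ u₂ v₂) (qC A x y u₁ v₁ u₂ v₂)
    (qB A x y u₂ v₂ u₁ v₁) (qA A x y u₂ v₂) v₂ (-v₁)

/-- GDC: from a basis to a good form, charts (model StmtGD2, W349/HZ/GD2.lean).

Proof. At `(p, q) = (v₂, -v₁)` the expression in `Ch2` is `u₁` and the one in `Ch1` is `u₂`
(identities using `u₁ v₂ - u₂ v₁ = 1`). `|u₁ - α v₁| ≤ 1/(T V)`, `α = R V²`. If `T v₁ ≥ V / 10`: `Ch2`,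
since `|u₁| ≥ α v₁ / 2`. Otherwise `s₁ t₂ - s₂ t₁ = 1` with `|s₁| ≤ 1/T`, `|t₁| ≤ 1/(10 T)`,
`|s₂| ≤ √8 T` gives `|t₂| ≥ 7 T / 10`, `|v₂| ≥ 7 T V / 10`, `|u₂| ≥ α |v₂| - √8 T / V ≥ R V³ T / 2`: `Ch1`. -/
def StmtGDC : Prop := ∀ (R α V V₀ T : ℝ), 20 ≤ R → 0 < α → V ^ 2 * R = α → 1 ≤ V₀ → V₀ ≤ V →
  V < 2 * V₀ → 1 / 2 ≤ T → ∀ (x y A : ℤ), α ^ 2 = x →
  ∀ (u₁ v₁ u₂ v₂ : ℤ), u₁ * v₂ - u₂ * v₁ = 1 → 1 ≤ v₁ →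
  ((((u₁ : ℝ) - α * v₁) * V) ^ 2 + (v₁ / V) ^ 2) * T ^ 2 ≤ 1 →
  (((u₂ : ℝ) - α * v₂) * V) ^ 2 + (v₂ / V) ^ 2 ≤ 8 * T ^ 2 →
  Ch2 3000 R T V₀ (qA A x y u₁ v₁) (qB A x y u₁ v₁ u₂ v₂) (qC A x y u₁ v₁ u₂ v₂)
    (qB A x y u₂ v₂ u₁ v₁) v₂ (-v₁) ∨
  Ch1 3000 R T V₀ (qB A x y u₁ v₁ u₂ v₂) (qC A x y u₁ v₁ u₂ v₂)
    (qB A x y u₂ v₂ u₁ v₁) (qA A x y u₂ v₂) v₂ (-v₁)

/-- NZ4: the first coefficient is not zero for nonsingular curves.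

Proof. Suppose `qA = 0`. `v ∣ u⁴`, so `v = 1`. With `w = u - α`, `|w| ≤ 1/V ≤ 1`:
`w⁴ + 4 α w³ + 8 (y - α³) w + (8 α (y - α³) - 4 A) = 0`, with the bounds of GDS
`|y - α³| ≤ 2 R²/α`, `|8 α (y - α³) - 4 A| ≤ 16 R³/α²`; so `Z = α |w|` has
`3 Z³ ≤ 16 R² Z + 16 R³`, `Z ≤ 3 R`. Hence `m = u² - x` has `|m| = |w| |2 α + w| ≤ 7 R`. With
`x = u² - m` the equation says `8 y u = 8 u⁴ - 12 m u² + 3 m² + 4 A`, so `u ∣ 3 m² + 4 A`, which is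
at most `151 R² < u` (`u ≥ α - 1 ≥ 10 R³ - 1`). So `4 A = -3 m²`, `2 y = 2 u³ - 3 m u`, and
`y² = x³ + A x + B` gives `4 B = m³`, so `4 A³ + 27 B² = 0`. -/
def StmtNZ4 : Prop := ∀ (R α V : ℝ), 20 ≤ R → 0 < α → V ^ 2 * R = α → 1 ≤ V →
  ∀ (x y A B u v : ℤ), α ^ 2 = x → 0 ≤ y → y ^ 2 = x ^ 3 + A * x + B →
  |(A : ℝ)| ≤ R ^ 2 → |(B : ℝ)| ≤ R ^ 3 → 4 * A ^ 3 + 27 * B ^ 2 ≠ 0 →
  100 * R ^ 6 ≤ (x : ℝ) → IsCoprime u v → 1 ≤ v → |(u : ℝ) - α * v| * V ≤ 1 →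
  qA A x y u v ≠ 0

/-- RED4: the reduction (model StmtRED, W762/HZ/RED.lean), from StmtLAT (proved, W349/HZ/LAT.lean)
with `α = √x`, `V = √(√x / R) ≥ 1`, GDS, GDI, GDC, NZ4; `2 ^ i` the power of two below `V`,
`T = 2 ^ j / 2`. -/
def StmtRED4 : Prop := ∀ R : ℝ, 20 ≤ R → ∀ x y A B : ℤ, y ^ 2 = x ^ 3 + A * x + B → 0 ≤ y →
  |(A : ℝ)| ≤ R ^ 2 → |(B : ℝ)| ≤ R ^ 3 → 4 * A ^ 3 + 27 * B ^ 2 ≠ 0 → 100 * R ^ 6 ≤ (x : ℝ) →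
  ∃ (i j : ℕ) (a b c d e p q : ℤ), (2 : ℝ) ^ i ≤ √(√(x : ℝ) / R) ∧
    √(√(x : ℝ) / R) < 2 ^ (i + 1) ∧ a ≠ 0 ∧ Good4 3000 R (2 ^ j / 2) (2 ^ i) a b c d e p q ∧
    (Ch2 3000 R (2 ^ j / 2) (2 ^ i) a b c d p q ∨ Ch1 3000 R (2 ^ j / 2) (2 ^ i) b c d e p q) ∧
    iI a b c d e = -4 * A ∧ iJ a b c d e = -4 * B

/-- A family `(τ i, y i)` is parametrised by polynomials of a small parameter, up to an error. -/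
def Param4 (C₄ S L e : ℝ) {ι : Type} (τ : ι → ℤ) (y : ι → ℝ) : Prop :=
  ∀ m : ℕ, ∃ (f : Fin m → ℝ[X]) (l0 l1 : ℝ) (ω z ε : ι → ℝ),
    (∀ j, (f j).natDegree ≤ 4 * m) ∧ (∀ j k, |(f j).coeff k| ≤ C₄ ^ m) ∧ |l0| ≤ C₄ ∧ |l1| ≤ C₄ ∧
    (∀ i, 1 ≤ C₄ ^ m * ω i) ∧ (∀ i, |z i| ≤ C₄ * (L / S)) ∧ (∀ i, |ε i| ≤ C₄ * e) ∧
    (∀ i (j : Fin m), ω i * (τ i : ℝ) ^ (j : ℕ) = S ^ (j : ℕ) * (f j).eval (z i)) ∧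
    (∀ i, y i = l0 + l1 * z i + ε i)

/-- DPG4: determinant bound for a parametrised family (model: `dpg : StmtDPG` in
Pool/Agent/Q208/PL/DPG.lean, the same with `Param`, degree `≤ 3 m`; StmtDET is proved). -/
def StmtDPG4 : Prop := ∀ C₄ : ℝ, 1 ≤ C₄ → ∃ C₅ : ℝ, 1 ≤ C₅ ∧ ∀ (m : ℕ) (S L e : ℝ), 1 ≤ m →
  0 < S → 0 < L → C₄ * L ≤ S → 0 < e → ∀ (τ : Fin m ⊕ Fin m → ℤ) (y : Fin m ⊕ Fin m → ℝ),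
  Param4 C₄ S L e τ y → ∀ Y : ℝ,
  (∀ u : ℤ, |u| ≤ m → e ^ ((m : ℤ) - u) * L ^ (m * (m - 1)) * (L / S) ^ (u.natAbs ^ 2) ≤ Y) →
  |Matrix.det (Matrix.of fun i : Fin m ⊕ Fin m =>
    Sum.elim (fun j : Fin m => (τ i : ℝ) ^ (j : ℕ)) (fun j : Fin m => y i * (τ i : ℝ) ^ (j : ℕ)))|
    ≤ C₅ ^ (m ^ 2) * Y

/-- C2R4: the real variable part of chart 2 (model StmtC2R, W12/HZ/C2R.lean). With `r i` the exact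
root near `y i` and `z i = r i - r i₀`, `E i - E i₀` is a polynomial of degree 4 in `z i`. -/
def StmtC2R4 : Prop := ∀ C : ℝ, 1 ≤ C → ∃ c₀ C₄ : ℝ, 0 < c₀ ∧ 1 ≤ C₄ ∧
  ∀ (S L e A B G D : ℝ) (ι : Type) (τ : ι → ℤ) (E y : ι → ℝ) (i₀ : ι), 0 < S → 0 ≤ L →
  C₄ * L ≤ S → 0 ≤ e → C₄ * e ≤ 1 → |A| ≤ C → |B| ≤ C → |G| ≤ C → |D| ≤ C → (∀ i, |E i| ≤ C) →
  (∀ i, |y i| ≤ C) →
  (∀ i, |A * y i ^ 4 + 4 * B * y i ^ 3 + 6 * G * y i ^ 2 + 4 * D * y i + E i| ≤ e) →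
  (∀ i, 1 ≤ C * |A * y i ^ 3 + 3 * B * y i ^ 2 + 3 * G * y i + D|) → (∀ i j, |y i - y j| ≤ c₀) →
  (∀ i, (τ i : ℝ) = S * (E i - E i₀)) → (∀ i, |(τ i : ℝ)| ≤ L) → Param4 C₄ S L e τ y

/-- C1R4: the real variable part of chart 1 (model StmtC1R, W12/HZ/C1R.lean). With the exact roots
`r i = r₀ (1 + r₀³ z i)`, `r₀ = r i₀`: `E i - E i₀ = z i N / (1 + r₀³ z i)⁴`, `N` a polynomial in `z i` of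
degree `≤ 3` with bounded coefficients (use `A = - 4 B r₀ - 6 G r₀² - 4 D r₀³ - E i₀ r₀⁴`), so
`ω i = (1 + r₀³ z i) ^ (4 m)`. -/
def StmtC1R4 : Prop := ∀ C : ℝ, 1 ≤ C → ∃ c₀ C₄ : ℝ, 0 < c₀ ∧ 1 ≤ C₄ ∧
  ∀ (S L e A B G D : ℝ) (ι : Type) (τ : ι → ℤ) (E y : ι → ℝ) (i₀ : ι), 0 < S → 0 ≤ L →
  C₄ * L ≤ S → 0 ≤ e → C₄ * e ≤ 1 → A ≠ 0 → |A| ≤ C → |B| ≤ C → |G| ≤ C → |D| ≤ C →
  (∀ i, |E i| ≤ C) → (∀ i, |y i| ≤ C) →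
  (∀ i, |A + 4 * B * y i + 6 * G * y i ^ 2 + 4 * D * y i ^ 3 + E i * y i ^ 4| ≤ e) →
  (∀ i, 1 ≤ C * |B + 3 * G * y i + 3 * D * y i ^ 2 + E i * y i ^ 3|) →
  (∀ i j, |y i - y j| ≤ c₀) →
  (∀ i, (τ i : ℝ) = S * (E i - E i₀)) → (∀ i, |(τ i : ℝ)| ≤ L) → Param4 C₄ S L e τ y

/-- PAR4: the inequality between the parameters (model StmtPAR, W164/HZ/PAR.lean). The exponent of
`S` is `σ (4 u - 2 m) + m (m - 1) / 11 - (10/11) u² ≤ 4.4 σ² - 2 m σ + m² / 11 ≤ -3.3 σ²` for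
`5 σ ≤ m ≤ 7 σ`. -/
def StmtPAR4 : Prop := ∀ C₆ : ℝ, 1 ≤ C₆ → ∃ S₀ : ℝ, 1 ≤ S₀ ∧ ∀ (S σ : ℝ) (m : ℕ), S₀ ≤ S →
  1 / 2 ≤ σ → m = ⌈5 * σ⌉₊ → ∃ Y : ℝ, C₆ ^ (m ^ 2) * Y < 1 ∧ ∀ u : ℤ, |u| ≤ m →
  (S ^ σ) ^ (4 * u - 2 * m) * (S ^ ((1 : ℝ) / 11)) ^ (m * (m - 1)) *
    (S ^ ((1 : ℝ) / 11) / S) ^ (u.natAbs ^ 2) ≤ Y

/-- VA24: the determinants vanish, chart 2 (model StmtVA2, W131/HZ/VA2.lean), from C2R4, DPG4, PAR4.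

`S = R T⁴`, `y i = P i / (T² Q i)`, normalised coefficients `a T⁴/R, b T²/R, c/R, d/(R T²), E i / S`,
error `1 / (R T⁴ Q⁴) ≤ C / V⁴`, `τ i = E i - e₀`, `L = S ^ (1/11)`. The determinant of `Mat` is the
product of the `Q i` times `T ^ (2m)` times the one of DPG4, so it is at most
`(C V) ^ (2 m) C₅ ^ (m²) Y'`, `V ^ (2m) (C / V⁴) ^ (m - u) ≤ C ^ (2m) V ^ (4 u - 2 m)`. The point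
`(e₀, p₀, q₀)` is the base point `i₀` (index type `Option` or as in the model). -/
def StmtVA24 : Prop := ∃ c₀ S₀ : ℝ, 0 < c₀ ∧ 1 ≤ S₀ ∧ ∀ (R T V σ : ℝ) (m : ℕ) (a b c d : ℤ)
  (e₀ p₀ q₀ : ℤ) (P Q E : Fin m ⊕ Fin m → ℤ),
  20 ≤ R → 1 / 2 ≤ T → S₀ ≤ R * T ^ 4 → 1 / 2 ≤ σ → V = (R * T ^ 4) ^ σ → m = ⌈5 * σ⌉₊ →
  (∀ i, Good4 3000 R T V a b c d (E i) (P i) (Q i) ∧ Ch2 3000 R T V a b c d (P i) (Q i)) →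
  Good4 3000 R T V a b c d e₀ p₀ q₀ → Ch2 3000 R T V a b c d p₀ q₀ →
  (∀ i j, |(P i : ℝ) / (T ^ 2 * Q i) - P j / (T ^ 2 * Q j)| ≤ c₀) →
  (∀ i, |(P i : ℝ) / (T ^ 2 * Q i) - p₀ / (T ^ 2 * q₀)| ≤ c₀) →
  (∀ i, |(E i : ℝ) - e₀| ≤ (R * T ^ 4) ^ ((1 : ℝ) / 11)) →
  (Mat m P Q (fun i => E i - e₀)).det = 0

/-- VA14: the determinants vanish, chart 1 (model StmtVA1, W591/HZ/VA1.lean), from C1R4, DPG4, PAR4;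
`y i = Q i T² / P i`, error `T⁴ / (R P⁴) ≤ C / V⁴`. -/
def StmtVA14 : Prop := ∃ c₀ S₀ : ℝ, 0 < c₀ ∧ 1 ≤ S₀ ∧ ∀ (R T V σ : ℝ) (m : ℕ) (a b c d : ℤ)
  (e₀ p₀ q₀ : ℤ) (P Q E : Fin m ⊕ Fin m → ℤ), a ≠ 0 →
  20 ≤ R → 1 / 2 ≤ T → S₀ ≤ R * T ^ 4 → 1 / 2 ≤ σ → V = (R * T ^ 4) ^ σ → m = ⌈5 * σ⌉₊ →
  (∀ i, Good4 3000 R T V a b c d (E i) (P i) (Q i) ∧ Ch1 3000 R T V b c d (E i) (P i) (Q i)) →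
  Good4 3000 R T V a b c d e₀ p₀ q₀ → Ch1 3000 R T V b c d e₀ p₀ q₀ →
  (∀ i j, |(Q i : ℝ) * T ^ 2 / P i - Q j * T ^ 2 / P j| ≤ c₀) →
  (∀ i, |(Q i : ℝ) * T ^ 2 / P i - q₀ * T ^ 2 / p₀| ≤ c₀) →
  (∀ i, |(E i : ℝ) - e₀| ≤ (R * T ^ 4) ^ ((1 : ℝ) / 11)) →
  (Mat m P Q (fun i => E i - e₀)).det = 0

/-- The polynomial `F_{e₁ + X}(-B, A)`. -/
def GP4 (a b c d e₁ : ℤ) (A B : ℤ[X]) : ℤ[X] :=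
  C a * B ^ 4 - 4 * C b * B ^ 3 * A + 6 * C c * B ^ 2 * A ^ 2 - 4 * C d * B * A ^ 3 +
    (C e₁ + X) * A ^ 4

/-- NFO: it is not a fourth power (model StmtNCU, W12/HZ/NCU.lean).

Proof. `P₂ ≠ 0`. If `A = 0` or `deg B > deg A`: the leading coefficient of `GP4` is
`a lc(B) ^ 4`, so `a` is the fourth power of a rational number, hence of an integer. If `A ≠ 0` and
`deg B ≤ deg A`: `GP4` has degree `4 deg A + 1`, not divisible by 4. -/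
def StmtNFO : Prop := ∀ (a b c d e₁ : ℤ), a ≠ 0 → (∀ t : ℤ, t ^ 4 ≠ a) → ∀ A B P₁ P₂ : ℤ[X],
  (A ≠ 0 ∨ B ≠ 0) → (P₁ ≠ 0 ∨ P₂ ≠ 0) → P₁ ^ 4 - P₂ ^ 4 * GP4 a b c d e₁ A B ≠ 0

/-- PAD4: divisibility of the determinant by a power of a prime (models: StmtPAD, W61/HZ/PAD.lean,
cubes, and Pool/Agent/Q288/PL/PAS.lean, squares); fourth powers, derivative `4 g³`. -/
def StmtPAD4 : Prop := ∀ (p : ℕ), p.Prime → 3 < p → ∀ (G : ℤ[X]) (m : ℕ), 1 ≤ m →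
  ∀ (τ g : Fin m ⊕ Fin m → ℤ), (∀ i, g i ^ 4 = G.eval (τ i)) → (∀ i, ¬ (p : ℤ) ∣ g i) →
  (∀ i j, (p : ℤ) ∣ τ i - τ j) → (∀ i j, (p : ℤ) ∣ g i - g j) →
  (p : ℤ) ^ (m * (2 * m - 1)) ∣ Matrix.det (Matrix.of fun i : Fin m ⊕ Fin m =>
    Sum.elim (fun j : Fin m => τ i ^ (j : ℕ)) (fun j : Fin m => g i * τ i ^ (j : ℕ)))

/-- CLS4: the points in a residue class (models StmtCLS, W33/HZ/CLS.lean, Q288/PL/CLQ.lean), from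
PAD4, NFO: a relation `P₁(τ) + g P₂(τ) = 0` makes `P₁⁴ - P₂⁴ GP4` vanish; its degree is at most
`4 (m' - 1) + 4 (m - 1) + 1`. -/
def StmtCLS4 : Prop := ∀ (a b c d e₁ : ℤ), a ≠ 0 → (∀ t : ℤ, t ^ 4 ≠ a) → ∀ (A B : ℤ[X]) (m : ℕ),
  (A ≠ 0 ∨ B ≠ 0) → A.natDegree < m → B.natDegree < m → ∀ (p m' : ℕ), p.Prime → 3 < p → 1 ≤ m' →
  ∀ (L Gm : ℝ), 1 ≤ L → 1 ≤ Gm → (2 * m') ^ 2 * Gm * L ^ (m' - 1) < (p : ℝ) ^ (2 * m' - 1) →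
  ∀ (𝒯 : Finset ℤ) (g : ℤ → ℤ), (∀ τ ∈ 𝒯, g τ ^ 4 = (GP4 a b c d e₁ A B).eval τ) →
  (∀ τ ∈ 𝒯, |(τ : ℝ)| ≤ L) → (∀ τ ∈ 𝒯, |(g τ : ℝ)| ≤ Gm) → (∀ τ ∈ 𝒯, ¬ (p : ℤ) ∣ g τ) →
  (∀ τ ∈ 𝒯, ∀ τ' ∈ 𝒯, (p : ℤ) ∣ τ - τ' ∧ (p : ℤ) ∣ g τ - g τ') →
  𝒯.card ≤ 4 * m' + 4 * m

/-- CUB4: the points on a relation (models StmtCUB, W462/HZ/CUB.lean, Q164/PL/CUQ.lean), from CLS4,
StmtPPR (proved). `(-B(τ), A(τ)) = g (p, q)` with an integer `g` (`p, q` are coprime), so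
`GP4(τ) = g⁴`; `g = 0` for at most `m` of the `τ`; for each `τ` mod `p` at most 4 values of `g` mod `p`. -/
def StmtCUB4 : Prop := ∀ (a b c d e₁ : ℤ), a ≠ 0 → (∀ t : ℤ, t ^ 4 ≠ a) → ∀ (A B : ℤ[X]) (m : ℕ),
  (A ≠ 0 ∨ B ≠ 0) → A.natDegree < m → B.natDegree < m → ∀ (L H Λ : ℝ), 1 ≤ L → 1 ≤ H → 1 ≤ Λ →
  (m : ℝ) ≤ Λ → (m : ℝ) * H * L ^ m ≤ Real.exp Λ → (∀ k, |(A.coeff k : ℝ)| ≤ H) →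
  (∀ k, |(B.coeff k : ℝ)| ≤ H) → ∀ 𝒯 : Finset ℤ, (∀ τ ∈ 𝒯, |(τ : ℝ)| ≤ L) →
  (∀ τ ∈ 𝒯, ∃ p q : ℤ, p * A.eval τ + q * B.eval τ = 0 ∧ qv a b c d (e₁ + τ) p q = 1) →
  (𝒯.card : ℝ) ≤ 300000 * √L * Λ ^ 2 * Real.log (120 * √L * Λ)

/-- INA4: the asymptotics (model StmtINA, W60/HZ/INA.lean: only the constants are different). -/
def StmtINA4 : Prop := ∃ S₀ : ℝ, 1 ≤ S₀ ∧ ∀ (S σ : ℝ) (m : ℕ), S₀ ≤ S → 1 / 2 ≤ σ →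
  σ ≤ S ^ ((1 : ℝ) / 2500) → m = ⌈5 * σ⌉₊ → ∃ Λ : ℝ, 1 ≤ Λ ∧ (m : ℝ) ≤ Λ ∧
    (m : ℝ) * (((m + m : ℕ) : ℝ) * (6000 * S * S ^ σ * (S ^ ((1 : ℝ) / 11)) ^ m)) ^ (m + m) *
      (S ^ ((1 : ℝ) / 11)) ^ m ≤ Real.exp Λ ∧
    300000 * √(S ^ ((1 : ℝ) / 11)) * Λ ^ 2 * Real.log (120 * √(S ^ ((1 : ℝ) / 11)) * Λ) ≤
      S ^ ((1 : ℝ) / 22 + 1 / 400)

/-- IN24: an interval and a cell, chart 2 (model StmtIN2, W303/HZ/IN2.lean), from VA24, StmtREL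
(proved), CUB4, INA4. -/
def StmtIN24 : Prop := ∃ c₀ S₀ : ℝ, 0 < c₀ ∧ 1 ≤ S₀ ∧ ∀ (R T V : ℝ) (a b c d : ℤ) (p q : ℤ → ℤ)
  (ℰ : Finset ℤ), a ≠ 0 → (∀ t : ℤ, t ^ 4 ≠ a) →
  20 ≤ R → 1 / 2 ≤ T → S₀ ≤ R * T ^ 4 → (R * T ^ 4) ^ ((1 : ℝ) / 2) ≤ V →
  Real.log V ≤ (R * T ^ 4) ^ ((1 : ℝ) / 2500) →
  (∀ e ∈ ℰ, Good4 3000 R T V a b c d e (p e) (q e) ∧ Ch2 3000 R T V a b c d (p e) (q e)) →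
  (∀ e ∈ ℰ, ∀ e' ∈ ℰ, |(p e : ℝ) / (T ^ 2 * q e) - p e' / (T ^ 2 * q e')| ≤ c₀) →
  (∀ e ∈ ℰ, ∀ e' ∈ ℰ, |(e : ℝ) - e'| ≤ (R * T ^ 4) ^ ((1 : ℝ) / 11)) →
  (ℰ.card : ℝ) ≤ (R * T ^ 4) ^ ((1 : ℝ) / 22 + 1 / 400)

/-- IN14: an interval and a cell, chart 1 (model StmtIN1, W369/HZ/IN1.lean), from VA14, StmtREL,
CUB4, INA4. -/
def StmtIN14 : Prop := ∃ c₀ S₀ : ℝ, 0 < c₀ ∧ 1 ≤ S₀ ∧ ∀ (R T V : ℝ) (a b c d : ℤ) (p q : ℤ → ℤ)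
  (ℰ : Finset ℤ), a ≠ 0 → (∀ t : ℤ, t ^ 4 ≠ a) →
  20 ≤ R → 1 / 2 ≤ T → S₀ ≤ R * T ^ 4 → (R * T ^ 4) ^ ((1 : ℝ) / 2) ≤ V →
  Real.log V ≤ (R * T ^ 4) ^ ((1 : ℝ) / 2500) →
  (∀ e ∈ ℰ, Good4 3000 R T V a b c d e (p e) (q e) ∧ Ch1 3000 R T V b c d e (p e) (q e)) →
  (∀ e ∈ ℰ, ∀ e' ∈ ℰ, |(q e : ℝ) * T ^ 2 / p e - q e' * T ^ 2 / p e'| ≤ c₀) →
  (∀ e ∈ ℰ, ∀ e' ∈ ℰ, |(e : ℝ) - e'| ≤ (R * T ^ 4) ^ ((1 : ℝ) / 11)) →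
  (ℰ.card : ℝ) ≤ (R * T ^ 4) ^ ((1 : ℝ) / 22 + 1 / 400)

/-- FIB4: the last coefficients, for given other coefficients (model StmtFIB, W284/HZ/FIB.lean), from
IN24, IN14. -/
def StmtFIB4 : Prop := ∃ S₀ : ℝ, 1 ≤ S₀ ∧ ∀ (R T V : ℝ) (a b c d : ℤ) (ℰ : Finset ℤ), a ≠ 0 →
  (∀ t : ℤ, t ^ 4 ≠ a) → 20 ≤ R → 1 / 2 ≤ T → S₀ ≤ R * T ^ 4 →
  (R * T ^ 4) ^ ((1 : ℝ) / 2) ≤ V → Real.log V ≤ (R * T ^ 4) ^ ((1 : ℝ) / 2500) →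
  (∀ e ∈ ℰ, ∃ p q : ℤ, Good4 3000 R T V a b c d e p q ∧
    (Ch2 3000 R T V a b c d p q ∨ Ch1 3000 R T V b c d e p q)) →
  (ℰ.card : ℝ) ≤ (R * T ^ 4) ^ (1 - (1 : ℝ) / 22 + 1 / 300)

/-- The pairs `(A, B)` from forms with the property `F`. -/
def pairs (F : ℤ → ℤ → ℤ → ℤ → ℤ → Prop) : Set (ℤ × ℤ) :=
  {X | ∃ a b c d e : ℤ, F a b c d e ∧ iI a b c d e = -4 * X.1 ∧ iJ a b c d e = -4 * X.2}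

/-- The sizes of a good form. -/
def Box (R T : ℝ) (a b c d e : ℤ) : Prop :=
  |(a : ℝ)| * T ^ 4 ≤ 3000 * R ∧ |(b : ℝ)| * T ^ 2 ≤ 3000 * R ∧ |(c : ℝ)| ≤ 3000 * R ∧
    |(d : ℝ)| ≤ 3000 * (R * T ^ 2) ∧ |(e : ℝ)| ≤ 3000 * (R * T ^ 4)

/-- CNC4: first coefficient not a fourth power, small shape (model StmtCNC, W214/HZ/CNC.lean), from
FIB4: at most `C R⁴ / T⁴` quadruples `(a, b, c, d)` (note `R / T⁴ ≥ R ^ 0.16`), each with at most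
`(R T⁴) ^ (1 - 1/22 + 1/300)` values of `e`. -/
def StmtCNC4 : Prop := ∃ C R₀ : ℝ, 1 ≤ C ∧ 1 ≤ R₀ ∧ ∀ R T V : ℝ, R₀ ≤ R → 1 / 2 ≤ T →
  T ≤ R ^ ((21 : ℝ) / 100) → R ^ ((95 : ℝ) / 100) ≤ V →
  Real.log V ≤ 1 / 2 * R ^ ((1 : ℝ) / 2500) →
  (pairs fun a b c d e => ∃ p q : ℤ, Good4 3000 R T V a b c d e p q ∧
    (Ch2 3000 R T V a b c d p q ∨ Ch1 3000 R T V b c d e p q) ∧ a ≠ 0 ∧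
    ∀ t : ℤ, t ^ 4 ≠ a).Finite ∧
  ((pairs fun a b c d e => ∃ p q : ℤ, Good4 3000 R T V a b c d e p q ∧
    (Ch2 3000 R T V a b c d p q ∨ Ch1 3000 R T V b c d e p q) ∧ a ≠ 0 ∧
    ∀ t : ℤ, t ^ 4 ≠ a).ncard : ℝ) ≤ C * R ^ (5 - (1 : ℝ) / 22 + 1 / 300)

/-- CFP: first coefficient a nonzero fourth power, small shape (model StmtCCU, W348/HZ/CCU.lean): at
most `C (R ^ (1/4) / T) (R / T²) R (R T²) (R T⁴) = C R ^ (4.25) T³ ≤ C R ^ (4.88)` forms. -/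
def StmtCFP : Prop := ∃ C : ℝ, 1 ≤ C ∧ ∀ R T : ℝ, 1 ≤ R → 1 / 2 ≤ T →
  T ≤ R ^ ((21 : ℝ) / 100) →
  (pairs fun a b c d e => Box R T a b c d e ∧ a ≠ 0 ∧ ∃ t : ℤ, t ^ 4 = a).Finite ∧
  ((pairs fun a b c d e => Box R T a b c d e ∧ a ≠ 0 ∧ ∃ t : ℤ, t ^ 4 = a).ncard : ℝ) ≤
    C * R ^ ((49 : ℝ) / 10)

/-- CLT4: large shape (model StmtCLT, W654/HZ/CLT.lean).

Proof. The substitution `X → X + k Y` changes `b` to `b + k a` and fixes `I`, `J`, `H = b² - a c`,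
`G = a² d - 3 a b c + 2 b³`; so we may take `b' ∈ [0, |a|)`, and keep `|H| ≤ C R² / T⁴`,
`|G| ≤ C R³ / T⁶`, `|I| ≤ C R²`. For given `a, b'` the integer `c' = (b'² - H) / a` has at most
`C R² / (T⁴ |a|)` values, then `d' = (G + 3 a b' c' - 2 b'³) / a²` at most `C R³ / (T⁶ a²)`, then
`e' = (I + 4 b' d' - 3 c'²) / a` at most `C R² / |a|` (each of these is at least 1 as
`1 ≤ |a| ≤ 3000 R / T⁴`). Total `C R⁷ T ^ (-10) ∑ |a| |a| ^ (-4) ≤ C R ^ (4.9)`. -/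
def StmtCLT4 : Prop := ∃ C : ℝ, 1 ≤ C ∧ ∀ R T : ℝ, 1 ≤ R → R ^ ((21 : ℝ) / 100) ≤ T →
  (pairs fun a b c d e => Box R T a b c d e ∧ a ≠ 0).Finite ∧
  ((pairs fun a b c d e => Box R T a b c d e ∧ a ≠ 0).ncard : ℝ) ≤ C * R ^ ((49 : ℝ) / 10)

/-- FIN4: the result (model StmtFIN, W382/HZ/FIN.lean), from RED4, CNC4, CFP, CLT4.

Proof. For large `R`: `y ≥ 0` by symmetry; RED4 gives `T = 2 ^ j / 2`, `V = 2 ^ i`; `T⁴ ≤ 3000 R` as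
`a ≠ 0`, so at most `C log R` values of `j`; `V ≥ √(√x / R) / 2 ≥ M ^ (1/4) R / 2 ≥ R`,
`log V ≤ R ^ (1/5000) / 4`, so at most `C R ^ (1/5000)` values of `i`. For each `i, j` the pairs are
counted by CNC4, CFP (`T ≤ R ^ 0.21`) or CLT4. Small `R` by `M`. -/
def StmtFIN4 : Prop := ∃ M : ℝ, ∀ R : ℝ, 1 ≤ R →
  ({X : ℤ × ℤ | |(X.1 : ℝ)| ≤ R ^ 2 ∧ |(X.2 : ℝ)| ≤ R ^ 3 ∧ 4 * X.1 ^ 3 + 27 * X.2 ^ 2 ≠ 0 ∧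
    ∃ x y : ℤ, y ^ 2 = x ^ 3 + X.1 * x + X.2 ∧ M * R ^ 6 ≤ (x : ℝ) ∧
      (x : ℝ) ≤ Real.exp (R ^ ((1 : ℝ) / 5000))}.ncard : ℝ) ≤ M * R ^ (5 - (1 : ℝ) / 50)

end

end Pool.Agent.Q276.HL
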